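import Pool.Agent.N84.MD.D
import Pool.Agent.Results.MP_1eadae_ag.AlmostAllPolylogarithms

/-!
# Polylogarithms at all rational approximations of almost every real tuple

For a rational number `q` in `(0, 1)` the numbers `log q` and `Li_k(q)`, `k ≤ w`, are (up to powers of `2 π i`) the periods of
the polylogarithmic mixed Tate motive over `ℚ`; the period conjecture predicts that `π` and the numbers `log q_j`,
`Li_1(q_j)`, …, `Li_w(q_j)`, for `n` numbers `q_j` in general position, are algebraically independent over `ℚ`.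

We prove that for all real `n`-tuples `y`, up to a set of Hausdorff dimension less than `n`, for ALL large `T` and ALL
rational `n`-tuples `q` with denominators at most `T` and `|y_j - q_j| ≤ T ^ (-τ)`, where `τ = 2` or even somewhat smaller
(for `τ < 2` and almost all `y` there are such tuples for every large `T`: convergents of the `y_j`), the numbers `π`,
`log q_j`, `Li_k(q_j)` satisfy no polynomial relation, even approximately, of bounded degree with integer coefficients at
most `T ^ A`. So the rational tuples considered are very sparse (for `n = 1` the number of convergents of `y` with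
denominator at most `T` is `O(log T)`), and there is no exception from some point on.

Proof: the starting theorem `AlmostAllPolylogarithms` of this problem bounds the number of the exceptional tuples with
denominators at most `T`; the Hausdorff-Cantelli lemma (`Pool.Agent.N84.MD`).
-/

set_option autoImplicit false

open Set Filter MeasureTheory
open scoped ENNReal

namespace Pool.Agent.Results.MP_1eadae_ag.ConvergentsOfRealTuples

open Pool.Agent.Results.MP_1eadae_ag.AlmostAllPolylogarithms (periods Exceptional)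

/-- No nonzero polynomial in `(w + 1) n + 1` variables with integer coefficients of absolute value at most `T ^ A`, of degree
at most `d` in each variable, takes at the numbers `π`, `log q_j`, `Li_k(q_j)`, `1 ≤ k ≤ w`, a value of absolute value at
most `T ^ (-B)`. -/
def Unrelated {n : ℕ} (w d : ℕ) (A B T : ℝ) (q : Fin n → ℚ) : Prop :=
  ∀ P : MvPolynomial (Option (Fin n × Fin (w + 1))) ℤ, P ≠ 0 → (∀ z, P.degreeOf z ≤ d) →
    (∀ e, |((P.coeff e : ℤ) : ℝ)| ≤ T ^ A) → T ^ (-B) < |MvPolynomial.aeval (periods w q) P|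

/-- For all large `T` all rational tuples `q` with coordinates in `[a, b]`, denominators at most `T` and
`|y_j - q_j| ≤ T ^ (-τ)` are unrelated at the scale `T`. -/
def AllApproximations {n : ℕ} (w d : ℕ) (a b A B τ : ℝ) (y : Fin n → ℝ) : Prop :=
  ∀ᶠ T : ℝ in atTop, ∀ q : Fin n → ℚ,
    (∀ j, (q j : ℝ) ∈ Icc a b ∧ ((q j).den : ℝ) ≤ T ∧ |y j - q j| ≤ T ^ (-τ)) → Unrelated w d A B T q

/-- Let `[a, b] ⊂ (0, 1)`, `n ≥ 1`, `w`, `d`, `A ≥ 0` and `β > 2 - 2 / ((d + 1) ^ ((w + 1) n + 1) + 1)`. There is `B` such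
that for all `τ > 0` the property `AllApproximations` holds for all `y` in `ℝⁿ` but a set of Hausdorff dimension at most
`(2 (n - 1) + β) / τ`. For `β < 2` and `τ = 2`, and for some smaller `τ` also, it holds for almost all `y`. -/
theorem result (n w d : ℕ) (hn : 1 ≤ n) (a b : ℝ) (ha : 0 < a) (hab : a < b) (hb : b < 1) (A β : ℝ) (hA : 0 ≤ A)
    (hβ : 2 - 2 / (((d : ℝ) + 1) ^ ((w + 1) * n + 1) + 1) < β) :
    ∃ B : ℝ, ∀ τ : ℝ, 0 < τ →
      dimH {y : Fin n → ℝ | ¬ AllApproximations w d a b A B τ y} ≤ ENNReal.ofReal ((2 * ((n : ℝ) - 1) + β) / τ) ∧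
      (2 * ((n : ℝ) - 1) + β < τ * n → ∀ᵐ y : Fin n → ℝ, AllApproximations w d a b A B τ y) := by
  obtain ⟨B, C, h⟩ := Pool.Agent.Results.MP_1eadae_ag.AlmostAllPolylogarithms.result n w d hn a b ha hab hb A β hA hβ
  have hn1 : (1 : ℝ) ≤ n := by exact_mod_cast hn
  have hβ0 : 0 ≤ β := by
    have h1 : 2 / (((d : ℝ) + 1) ^ ((w + 1) * n + 1) + 1) ≤ 2 := by
      rw [div_le_iff₀ (by positivity)]
      have : (0 : ℝ) ≤ ((d : ℝ) + 1) ^ ((w + 1) * n + 1) := by positivity
      linarith
    linarith
  have hs : 0 ≤ 2 * ((n : ℝ) - 1) + β := by linarith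
  refine ⟨max B 0 + 1, fun τ hτ => ?_⟩
  obtain ⟨T₀, hT₀1, hT₀⟩ := Pool.Agent.N84.MD.scale_value (B := B)
  have hdim := Pool.Agent.N84.MD.scales (X := Fin n) (S := Fin n → ℚ) (fun q j => (q j : ℝ))
    (fun T => Exceptional n w d a b A (max B 0 + 1) T) (fun T => Exceptional n w d a b A B T) hs hτ
    ⟨T₀, fun T T' hT h1 h2 q hq => by
      obtain ⟨h3, P, h4, h5, h6, h7⟩ := hq
      have hT1 : 1 ≤ T := hT₀1.trans hT
      exact ⟨fun j => ⟨(h3 j).1, (h3 j).2.1, (h3 j).2.2.trans h1⟩, P, h4, h5, fun e => (h6 e).trans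
        (Real.rpow_le_rpow (by linarith) h1 hA), h7.trans (hT₀ T T' hT h1 h2)⟩⟩
    ⟨C, h⟩
  have hsub : {y : Fin n → ℝ | ¬ AllApproximations w d a b A (max B 0 + 1) τ y} ⊆
      {y : Fin n → ℝ | ¬ ∀ᶠ T : ℝ in atTop, ∀ e ∈ Exceptional n w d a b A (max B 0 + 1) T,
        ¬ ∀ i, |y i - (fun (q : Fin n → ℚ) j => (q j : ℝ)) e i| ≤ T ^ (-τ)} := by
    intro y hy hy2
    apply hy
    filter_upwards [hy2] with T hT q hq P hP hd hco
    by_contra hcon
    push Not at hcon
    exact hT q ⟨fun j => ⟨(hq j).1.1, (hq j).1.2, (hq j).2.1⟩, P, hP, hd, hco, hcon⟩ (fun j => (hq j).2.2)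
  have hdim2 := le_trans (dimH_mono hsub) hdim
  refine ⟨hdim2, fun hlt => ?_⟩
  rw [ae_iff]
  refine Pool.Agent.N84.MD.null_of_dim hdim2 (by positivity) ?_
  rw [div_lt_iff₀ hτ]
  linarith

end Pool.Agent.Results.MP_1eadae_ag.ConvergentsOfRealTuples
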