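import Pool.Agent.N121.MK.Main

/-!
# Kontsevich's period conjecture for 100% of the pairs (affine hyperelliptic curve, marked fibres)

Let `w_0 = 1, w_1, …, w_q` be complex numbers and `Λ = ℤ w_0 + … + ℤ w_q`, for example the ring of integers of a number
field `k ⊂ ℂ` (with a basis `w` which contains `1`), or a finitely generated group of elements of any field `k ⊂ ℂ`.
Integers `b` give polynomials `F_j ∈ Λ[x]` of degree at most `n_j + 1`, and points `z_s = u_s / v_s`, `u_s, v_s ∈ Λ`,
of the line: `m_j` points for each curve `U_j : y² = F_j(x)`. All parameters are ordered by their size `|b| ≤ T`. So we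
consider 100% of the tuples of the pairs `(U_j, M_j)`, where `M_j ⊂ U_j` consists of the points over the marked points
`z_s` of the line. The degrees `n_j + 1` and the numbers `m_j` are arbitrary.

The cohomology `H¹(U_j, M_j)` is a mixed motive (the realisation of the 1-motive `[ℤ ^ {m_j} → G_j]`, where `G_j` is the
Jacobian of the complete curve for even `n_j` and an extension of the Jacobian by `𝔾_m` for odd `n_j`, up to a trivial
part). The de Rham cohomology of `U_j` is generated by the forms `x ^ i dx / y`, `i < n_j`. The periods of the pair are,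
up to multiples of `2πi` by algebraic functions of the coefficients and elements of the base field,
* the periods of the forms of the first and of the second kind over `2 g_j` loops, `g_j = ⌊n_j / 2⌋` (`periods`),
* the periods of the form `x ^ {g_j} dx / y` of the third kind over the same loops, for odd `n_j` (`thirdKind`),
* the integrals `∫ x ^ i dx / y`, `i < n_j`, from a branch point to the marked points (`toMarked`); these are the
  (quasi-)logarithms of the marked points, and twice these numbers are the integrals over the paths in `U_j` between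
  the two points over `z_s`.

The torsor of formal periods (restricted to the spaces `H¹(U_j, M_j)` and to the multiplier) is contained in the torsor
below: the matrix of the periods of the first and second kind is restricted by the polarisation, and all other periods
are arbitrary. For 100% of the parameters all polynomial relations between the periods with coefficients in the group
generated by `ω(T)` arbitrary complex numbers `ξ` (for instance by monomials in the generators of the base field, in
`2πi` and in the periods of any other motive), of degree at most `ω(T)` and height at most `T ^ ω(T)`, hold on the fibre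
of the torsor over `2πi`, where `ω(T) → ∞`; and all relations over number fields between the periods and `2πi` hold on
the whole torsor, so they are consequences of the bilinear relations of Riemann, which come from geometry.

The main points of the proof: the periods of the third kind are free over the periods of the first and second kind
(monodromy); the integrals up to the marked points are free over all functions of the coefficients (differential
algebra, `MK.ch_ind`, based on work of helper207); the space of parameters is decomposed in finitely many domains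
according to the positions of the marked points among the roots, and the covering theorem of the starting library is
applied on each of them.
-/

set_option autoImplicit false

open Polynomial NumberField Filter

namespace Pool.Agent.Results.MP_1eadae_ag.HyperellipticPairs

variable {N : ℕ}

/-- twice the genus of the curves `y² = F(x)`, `F` of degree `m + 1` -/
abbrev dim (m : ℕ) : ℕ := 2 * (m / 2)

/-- the marked points: `m_j` points for the curve `j` -/
abbrev Marks (m : Fin N → ℕ) : Type := Σ j, Fin (m j)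

/-- the indices of the parameters: the coefficients of the polynomials, and the numerators `(s, 0)` and denominators
`(s, 1)` of the marked points -/
abbrev Par (n m : Fin N → ℕ) (q : ℕ) : Type := ((Σ j, Fin (n j + 2)) × Fin (q + 1)) ⊕ ((Marks m × Fin 2) × Fin (q + 1))

/-- the polynomials `F_j = ∑ (∑_i b_(j,k,i) w_i) x ^ k`, `k ≤ n_j + 1` -/
noncomputable def pol (n m : Fin N → ℕ) {q : ℕ} (w : Fin (q + 1) → ℂ) (b : Par n m q → ℤ) (j : Fin N) : ℂ[X] :=
  ∑ k : Fin (n j + 2), C (∑ i, w i * (b (Sum.inl (⟨j, k⟩, i)) : ℂ)) * X ^ (k : ℕ)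

/-- the numerator of the marked point `s` -/
noncomputable def num (n m : Fin N → ℕ) {q : ℕ} (w : Fin (q + 1) → ℂ) (b : Par n m q → ℤ) (s : Marks m) : ℂ :=
  ∑ i, w i * (b (Sum.inr ((s, 0), i)) : ℂ)

/-- the denominator of the marked point `s` -/
noncomputable def den (n m : Fin N → ℕ) {q : ℕ} (w : Fin (q + 1) → ℂ) (b : Par n m q → ℤ) (s : Marks m) : ℂ :=
  ∑ i, w i * (b (Sum.inr ((s, 1), i)) : ℂ)

/-- the marked point `s` -/
noncomputable def marked (n m : Fin N → ℕ) {q : ℕ} (w : Fin (q + 1) → ℂ) (b : Par n m q → ℤ) (s : Marks m) : ℂ :=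
  num n m w b s / den n m w b s

/-- the parameters with `|b| ≤ T` -/
noncomputable def Box (n m : Fin N → ℕ) (q T : ℕ) : Finset (Par n m q → ℤ) :=
  Fintype.piFinset fun _ => Finset.Icc (-(T : ℤ)) T

/-- `F` has degree `m + 1` and its roots are `e`, in increasing order with respect to `re + im` (so they are
distinct) -/
def Branch {m : ℕ} (F : ℂ[X]) (e : Fin (m + 1) → ℂ) : Prop :=
  F.coeff (m + 1) ≠ 0 ∧ F = C (F.coeff (m + 1)) * ∏ r, (X - C (e r)) ∧
    ∀ r s, r < s → (e r).re + (e r).im < (e s).re + (e s).im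

/-- exactly the roots `e_0, …, e_(k-1)` are smaller than `z` (with respect to `re + im`), and the others are larger -/
def Position {m : ℕ} (e : Fin (m + 1) → ℂ) (k : Fin (m + 2)) (z : ℂ) : Prop :=
  ∀ i : Fin (m + 1), ((i : ℕ) < k → (e i).re + (e i).im < z.re + z.im) ∧
    ((k : ℕ) ≤ i → z.re + z.im < (e i).re + (e i).im)

/-- a branch of the square root of `c ∏ (x - e i)`, for `x` on the segment from `e l` to `e (l + 1)`: all
arguments of the principal square roots have real part `≥ 0`, up to the first two (constant) factors -/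
noncomputable def root {m : ℕ} (c : ℂ) (e : Fin (m + 1) → ℂ) (l : Fin m) (x : ℂ) : ℂ :=
  ((1 + Complex.I) ^ (1 / 2 : ℂ)) ^ (m + 2) * (c / (1 + Complex.I)) ^ (1 / 2 : ℂ) *
    Complex.I ^ (m % 2 + (l : ℕ) % 2) *
    ∏ i : Fin (m + 1), ((if (i : ℕ) ≤ l then x - e i else e i - x) / (1 + Complex.I)) ^ (1 / 2 : ℂ)

/-- the point of the segment from `p` to `q` -/
noncomputable def seg (p q : ℂ) (t : ℝ) : ℂ := (1 - t) * p + t * q

/-- the period `∮ x ^ j dx / y`, `y² = c ∏ (x - e i)`, over the loop around the segment from `e l` to `e (l + 1)`, that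
is twice the integral over the segment -/
noncomputable def period {m : ℕ} (c : ℂ) (e : Fin (m + 1) → ℂ) (l j : Fin m) : ℂ :=
  2 * ∫ t in (0 : ℝ)..1, (seg (e l.castSucc) (e l.succ) t) ^ (j : ℕ) /
    root c e l (seg (e l.castSucc) (e l.succ) t) * (e l.succ - e l.castSucc)

/-- the index of the branch point at the beginning of the path to a point in position `k`: the last root before the
point, or the first root -/
def base {m : ℕ} (k : Fin (m + 2)) : Fin (m + 1) := ⟨(k : ℕ) - 1, by have := k.2; omega⟩

/-- the segment from the branch point to `z`, with the parameter `t`: `x = e + (z - e) t ^ 2` -/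
noncomputable def path {m : ℕ} (e : Fin (m + 1) → ℂ) (k : Fin (m + 2)) (z : ℂ) (t : ℝ) : ℂ :=
  e (base k) + (z - e (base k)) * (t : ℂ) ^ 2

/-- a branch of the square root of `c ∏ (x - e i)` on the segment from the branch point to a point in position `k` -/
noncomputable def rootTo {m : ℕ} (c : ℂ) (e : Fin (m + 1) → ℂ) (k : Fin (m + 2)) (x : ℂ) : ℂ :=
  ((1 + Complex.I) ^ (1 / 2 : ℂ)) ^ (m + 2) * (c / (1 + Complex.I)) ^ (1 / 2 : ℂ) *
    Complex.I ^ (m % 2 + ((k : ℕ) + 1)) *
    ∏ i : Fin (m + 1), ((if (i : ℕ) < k then x - e i else e i - x) / (1 + Complex.I)) ^ (1 / 2 : ℂ)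

/-- the integral `∫ x ^ j dx / y` from the branch point to the point `z` in position `k`, with
`x = e + (z - e) t ^ 2`, `dx = 2 (z - e) t dt` -/
noncomputable def integralTo {m : ℕ} (c : ℂ) (e : Fin (m + 1) → ℂ) (k : Fin (m + 2)) (z : ℂ) (j : ℕ) : ℂ :=
  ∫ t in (0 : ℝ)..1, (path e k z t) ^ j / rootTo c e k (path e k z t) * (2 * (z - e (base k)) * t)

/-- the `i`-th form is `∑ form m F i k * x ^ k dx / y`: for `i < g = ⌊m / 2⌋` it is `x ^ i dx / y`, and for `i = g + i'`
it is the form of the second kind `∑_(i'<k) (i' - k)/2 c_(i'+k+2) x ^ k dx / y`, where `F = ∑ c_k x ^ k` -/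
noncomputable def form (m : ℕ) (F : ℂ[X]) (i k : ℕ) : ℂ :=
  if i < m / 2 then (if k = i then 1 else 0) else
    (if i - m / 2 < k then (((i - m / 2 : ℕ) : ℂ) - (k : ℂ)) / 2 * F.coeff (i - m / 2 + k + 2) else 0)

/-- the matrix of the periods of the `2 g` forms over the first `2 g` loops, `g = ⌊m / 2⌋` -/
noncomputable def periods {m : ℕ} (F : ℂ[X]) (e : Fin (m + 1) → ℂ) : Matrix (Fin (dim m)) (Fin (dim m)) ℂ :=
  Matrix.of fun l i => ∑ k : Fin m,
    period (F.coeff (m + 1)) e (Fin.castLE (by unfold dim; omega) l) k * form m F (i : ℕ) (k : ℕ)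

/-- the periods of the form of the third kind `x ^ g dx / y` over the first `2 g` loops, where `m = 2 g + 1` is odd; for
even `m` the index set `Fin (m % 2)` is empty and there is no such form -/
noncomputable def thirdKind {m : ℕ} (F : ℂ[X]) (e : Fin (m + 1) → ℂ) (s : Fin (m % 2) × Fin (dim m)) : ℂ :=
  period (F.coeff (m + 1)) e (Fin.castLE (by unfold dim; omega) s.2)
    ⟨m / 2, by have h := s.1.2; omega⟩

/-- the polarisation in terms of the forms: the standard symplectic matrix -/
def polDR (m : ℕ) : Matrix (Fin (dim m)) (Fin (dim m)) ℚ :=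
  Matrix.of fun r s => if (s : ℕ) = r + m / 2 then 1 else if (r : ℕ) = s + m / 2 then -1 else 0

/-- the polarisation in terms of the loops: `2 (-1) ^ r` at `(r, s)`, `|r - s| = 1` -/
def polB (m : ℕ) : Matrix (Fin (dim m)) (Fin (dim m)) ℚ :=
  Matrix.of fun r s => if (r : ℕ) = s + 1 ∨ (s : ℕ) = r + 1 then 2 * (-1) ^ (r : ℕ) else 0

/-- the names of all the periods: the entries of the matrices of the curves; the periods of the third kind of the curves
with odd `n_j`; the integrals of the forms `x ^ i dx / y`, `i < n_j`, up to the marked points -/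
abbrev Ind (n m : Fin N → ℕ) : Type :=
  (Σ j, Fin (dim (n j)) × Fin (dim (n j))) ⊕ ((Σ j, Fin (n j % 2) × Fin (dim (n j))) ⊕ (Σ s : Marks m, Fin (n s.1)))

/-- the periods of the pairs: the affine curves `y² = F_j(x)` relative to the fibres over the points `z s`, which are in
the positions `k s` -/
noncomputable def allPeriods {n m : Fin N → ℕ} (F : Fin N → ℂ[X]) (e : ∀ j, Fin (n j + 1) → ℂ)
    (k : ∀ s : Marks m, Fin (n s.1 + 2)) (z : Marks m → ℂ) : Ind n m → ℂ :=
  Sum.elim (fun s => periods (F s.1) (e s.1) s.2.1 s.2.2) (Sum.elim (fun s => thirdKind (F s.1) (e s.1) s.2)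
    (fun s => integralTo ((F s.1.1).coeff (n s.1.1 + 1)) (e s.1.1) (k s.1) (z s.1) s.2))

/-- the matrix at the place of the periods of the first and second kind of the curve `j` -/
def matrix {n m : Fin N → ℕ} (Y : Ind n m → ℂ) (j : Fin N) : Matrix (Fin (dim (n j))) (Fin (dim (n j))) ℂ :=
  Matrix.of fun l i => Y (Sum.inl ⟨j, (l, i)⟩)

/-- the complex points of the torsor: `Y` and `lam ≠ 0` with `X_j polDR X_jᵀ = lam polB` for the matrices `X_j` of `Y`;
all other coordinates of `Y` (at the places of the periods of the third kind and of the integrals up to the marked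
points) are arbitrary -/
def Torsor (n m : Fin N → ℕ) : Set ((Ind n m → ℂ) × ℂ) :=
  {x | x.2 ≠ 0 ∧ ∀ j, matrix x.1 j * (polDR (n j)).map (algebraMap ℚ ℂ) * (matrix x.1 j).transpose =
    x.2 • (polB (n j)).map (algebraMap ℚ ℂ)}

/-- the point with the coordinates `Y` and `lam` -/
def point {n m : Fin N → ℕ} (Y : Ind n m → ℂ) (lam : ℂ) : Option (Ind n m) → ℂ := fun o => o.elim lam Y

/-- every relation `∑ ξ_b P_b(Y) = 0`, `b < k`, `P_b` integral polynomials of degree `≤ k` with coefficients `≤ H` in
absolute value, holds on the fibre of the torsor over `2πi` -/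
def RelativeGPC (n m : Fin N → ℕ) (Y : Ind n m → ℂ) (k : ℕ) (ξ : Fin k → ℂ) (H : ℝ) : Prop :=
  ∀ P : Fin k → MvPolynomial (Ind n m) ℤ, (∀ b, (P b).totalDegree ≤ k) →
    (∀ b s, |(((P b).coeff s : ℤ) : ℝ)| ≤ H) → ∑ b, ξ b * MvPolynomial.aeval Y (P b) = 0 →
    ∀ Z, (Z, (2 * Real.pi * Complex.I : ℂ)) ∈ Torsor n m → ∑ b, ξ b * MvPolynomial.aeval Z (P b) = 0

/-- every polynomial `P` of degree `≤ k` with coefficients in the ring of integers of a number field of degree `≤ k`,
all conjugates of the coefficients being `≤ H` in absolute value, with `P(Y, 2πi) = 0`, vanishes on the torsor -/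
def BoundedGPC (n m : Fin N → ℕ) (Y : Ind n m → ℂ) (k : ℕ) (H : ℝ) : Prop :=
  ∀ (K : Type) [Field K] [NumberField K] (φ : K →+* ℂ) (P : MvPolynomial (Option (Ind n m)) (𝓞 K)),
    Module.finrank ℚ K ≤ k → P.totalDegree ≤ k →
    (∀ s (ψ : K →+* ℂ), ‖ψ (algebraMap (𝓞 K) K (P.coeff s))‖ ≤ H) →
    (P.map (φ.comp (algebraMap (𝓞 K) K))).eval (point Y (2 * Real.pi * Complex.I)) = 0 →
    ∀ x ∈ Torsor n m, (P.map (φ.comp (algebraMap (𝓞 K) K))).eval (point x.1 x.2) = 0

/-- Let `N ≥ 1`, let `n_j`, `m_j` be natural numbers and let `w_0 = 1, w_1, …, w_q` be complex numbers. There is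
`ω : ℕ → ℕ`, `ω(T) → ∞`, such that for all `ε > 0` and `T ≥ T₀(ε)` and all complex numbers `ξ_b`, `b < ω(T)`, all but a
proportion `ε` of the parameters `b` with `|b| ≤ T` satisfy: `F_j` has degree `n_j + 1` and distinct roots, with
distinct `re + im`, different from those of the marked points `z_s = u_s / v_s`, `v_s ≠ 0`; the periods of the pairs
(affine curve `y² = F_j(x)`, fibres over the marked points) and `2πi` form a point of the torsor; all relations of degree
`≤ ω(T)` between the periods with coefficients `∑ c_b ξ_b`, `c_b` integers, `|c_b| ≤ T ^ ω(T)`, hold on the fibre of the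
torsor over `2πi`; all relations of degree `≤ ω(T)` and size `≤ T ^ ω(T)` over number fields of degree `≤ ω(T)` between
the periods and `2πi` hold on the torsor. -/
theorem result (hN : 1 ≤ N) (n m : Fin N → ℕ) (q : ℕ) (w : Fin (q + 1) → ℂ) (hw : w 0 = 1) :
    ∃ ω : ℕ → ℕ, Tendsto ω atTop atTop ∧ ∀ ε : ℝ, 0 < ε → ∃ T₀ : ℕ, ∀ T : ℕ, T₀ ≤ T → ∀ ξ : Fin (ω T) → ℂ,
      ∃ E ⊆ Box n m q T, (E.card : ℝ) ≤ ε * (Box n m q T).card ∧ ∀ b ∈ Box n m q T, b ∉ E →
        (∀ s, den n m w b s ≠ 0) ∧
        ∃ (e : ∀ j, Fin (n j + 1) → ℂ) (k : ∀ s : Marks m, Fin (n s.1 + 2)),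
          (∀ j, Branch (pol n m w b j) (e j)) ∧ (∀ s, Position (e s.1) (k s) (marked n m w b s)) ∧
          (allPeriods (pol n m w b) e k (marked n m w b), (2 * Real.pi * Complex.I : ℂ)) ∈ Torsor n m ∧
          RelativeGPC n m (allPeriods (pol n m w b) e k (marked n m w b)) (ω T) ξ ((T : ℝ) ^ ω T) ∧
          BoundedGPC n m (allPeriods (pol n m w b) e k (marked n m w b)) (ω T) ((T : ℝ) ^ ω T) := by
  have : Nonempty (Fin N) := ⟨⟨0, hN⟩⟩
  obtain ⟨ω, hω, H⟩ := Pool.Agent.N121.MK.main n m hw
  refine ⟨ω, hω, fun ε hε => ?_⟩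
  obtain ⟨T₀, hT₀⟩ := H ε hε
  refine ⟨T₀, fun T hT ξ => ?_⟩
  obtain ⟨E, hE1, hE2, hE3⟩ := hT₀ T hT ξ
  have hbox : Pool.Agent.N121.OH.BX (Pool.Agent.N121.MK.wtM n m q) T = Box n m q T := by
    unfold Pool.Agent.N121.OH.BX Box Pool.Agent.N121.MK.wtM
    simp
  rw [hbox] at hE1 hE2 hE3
  refine ⟨E, hE1, hE2, fun b hb hbE => ?_⟩
  obtain ⟨hv, e, k, he, hk, h1, h2, h3⟩ := hE3 b hb hbE
  refine ⟨hv, e, k, ?_⟩
  set a : (Σ i, Fin (n i + 2)) → ℂ := Pool.Agent.N121.MK.cA w (Pool.Agent.N121.MK.toC b) with ha
  have hpol : ∀ j, pol n m w b j = Pool.Agent.N121.AH.fp (Pool.Agent.Y890.MV.pj a j) := fun j => rfl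
  have hlead : ∀ j, (pol n m w b j).coeff (n j + 1) = a ⟨j, Fin.last (n j + 1)⟩ := by
    intro j
    rw [hpol, Pool.Agent.N121.AH.fp_coeff, dif_pos (by omega)]
    rfl
  have hmark : marked n m w b = fun s => Pool.Agent.N121.MK.cU w (Pool.Agent.N121.MK.toC b) s /
      Pool.Agent.N121.MK.cV w (Pool.Agent.N121.MK.toC b) s := rfl
  have hroot : ∀ j (c : ℂ) (e : Fin (n j + 1) → ℂ) (l : Fin (n j)) (x : ℂ), root c e l x =
      Pool.Agent.N121.AH.rtG c e l x := by
    intro j c e l x
    unfold root Pool.Agent.N121.AH.rtG Pool.Agent.N121.AH.scf Pool.Agent.N121.OH.rtF Pool.Agent.N121.AH.w0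
      Pool.Agent.N121.AH.u0
    rw [pow_add Complex.I]
    ring
  have hrootTo : ∀ j (c : ℂ) (e : Fin (n j + 1) → ℂ) (k : Fin (n j + 2)) (x : ℂ), rootTo c e k x =
      Pool.Agent.N121.MK.rtZ c e k x := by
    intro j c e k x
    have hp : ∏ i : Fin (n j + 1), ((if (i : ℕ) < k then x - e i else e i - x) / (1 + Complex.I)) ^ (1 / 2 : ℂ) =
        Pool.Agent.N121.MK.rS e k x := by
      unfold Pool.Agent.N121.MK.rS Pool.Agent.N121.MK.ag Pool.Agent.N121.MK.sg Pool.Agent.N121.AH.u0
      refine Finset.prod_congr rfl fun i _ => ?_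
      congr 2
      split_ifs <;> ring
    unfold rootTo Pool.Agent.N121.MK.rtZ Pool.Agent.N121.AH.scf Pool.Agent.N121.AH.w0
    rw [hp, pow_add Complex.I]
    have h4 : (c / Pool.Agent.N121.AH.u0) = c / (1 + Complex.I) := rfl
    rw [h4]
    ring
  have hperG : ∀ j (c : ℂ) (e : Fin (n j + 1) → ℂ) (l k : Fin (n j)), period c e l k =
      Pool.Agent.N121.AH.perG c e l k := by
    intro j c e l k
    unfold period Pool.Agent.N121.AH.perG
    simp only [hroot]
    rfl
  have hint : ∀ j (c : ℂ) (e : Fin (n j + 1) → ℂ) (k : Fin (n j + 2)) (z : ℂ) (i : ℕ), integralTo c e k z i =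
      Pool.Agent.N121.MK.mkI c e k z i := by
    intro j c e k z i
    unfold integralTo Pool.Agent.N121.MK.mkI
    simp only [hrootTo]
    rfl
  have hper : allPeriods (pol n m w b) e k (marked n m w b) = Pool.Agent.N121.MK.PXM n m a e k (fun s =>
      Pool.Agent.N121.MK.cU w (Pool.Agent.N121.MK.toC b) s / Pool.Agent.N121.MK.cV w (Pool.Agent.N121.MK.toC b) s) := by
    funext s
    rcases s with ⟨j, l, i⟩ | ⟨j, u, l⟩ | ⟨s, i⟩
    · show periods (pol n m w b j) (e j) l i = Pool.Agent.N121.AH.PM n a e j l i
      unfold periods Pool.Agent.N121.AH.PM Pool.Agent.N121.AH.PF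
      rw [Matrix.of_apply, Matrix.mul_apply]
      refine Finset.sum_congr rfl fun k _ => ?_
      rw [Matrix.of_apply, hperG]
      rfl
    · show period ((pol n m w b j).coeff (n j + 1)) (e j) _ _ = Pool.Agent.N121.OC.PT n a e ⟨j, (u, l)⟩
      rw [hlead, hperG]
      rfl
    · have e1 : allPeriods (pol n m w b) e k (marked n m w b) (Sum.inr (Sum.inr ⟨s, i⟩)) =
          integralTo ((pol n m w b s.1).coeff (n s.1 + 1)) (e s.1) (k s) (marked n m w b s) i := rfl
      rw [e1, hlead, hint, hmark]
      rfl
  have htor : Torsor n m = Pool.Agent.N121.MK.TorYM n m := by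
    have hq : ∀ j, (polDR (n j)).map (algebraMap ℚ ℂ) = Pool.Agent.N121.AH.q0 ℂ (n j) := by
      intro j
      ext r s
      rw [Matrix.map_apply]
      unfold polDR Pool.Agent.N121.AH.q0
      rw [Matrix.of_apply, Matrix.of_apply]
      split_ifs <;> simp
    ext x
    unfold Torsor Pool.Agent.N121.MK.TorYM Pool.Agent.N121.AH.TorG
    simp only [Set.mem_ofPred_eq, hq]
    rfl
  refine ⟨fun j => ⟨?_, ?_, (he j).2.2⟩, fun s => hk s, ?_, ?_, ?_⟩
  · rw [hlead]
    exact (he j).1
  · rw [hlead, hpol]
    exact (he j).2.1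
  · rw [htor, hper]
    exact h1
  · rw [hper]
    intro P hd hc h0 Y hY
    rw [htor] at hY
    exact h3 P hd hc h0 Y hY
  · rw [hper]
    intro K _ _ φ P hK hd hc h0 x hx
    rw [htor] at hx
    exact h2 K φ P hK hd hc h0 x hx

end Pool.Agent.Results.MP_1eadae_ag.HyperellipticPairs
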