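import Mathlib
import Pool.Agent.X255.RH.Main
import Pool.Agent.Y771.KF.MSN
import Pool.Agent.TH818.AP.LiInd
import Pool.Agent.TH818.AP.LiLoc

/-!
# Polylogarithms at all roots of almost all integral polynomials

The numbers `log x`, `Li_1(x) = -log(1 - x)`, `Li_2(x)`, …, `Li_w(x)` for algebraic numbers `x`, `0 < |x| < 1`, are periods (of mixed Tate
motives over number fields). Kontsevich's conjecture predicts that all algebraic relations between them come from the rules of calculus; for
`x_1, …, x_m` in general position there should be none.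

We consider all the roots of an integral polynomial of degree `g` in the slit disc. For almost all polynomials with coefficients at most `T` the
polylogarithms at ALL these roots satisfy together no algebraic relation over number fields whose degree and whose field degree is at most `ω(T)`
and whose height is at most `T ^ ω(T)`, where `ω(T) → ∞`; the coefficients of the relations may contain arbitrary given complex numbers
`ξ_0, ξ_1, …`, for instance the powers of `π`, or any countable set of periods.

The proof is an application of `Pool.Agent.X255.RH.main_all` (values of algebraically independent functions at the roots of almost all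
polynomials) to the functions `log x`, `Li_1(x)`, …, `Li_w(x)`, which are algebraically independent over `ℂ(x)` (`Pool.Agent.TH818.AP.LiInd`).
-/

set_option autoImplicit false

open Polynomial Filter Topology NumberField

namespace Pool.Agent.Results.MP_1eadae_ag.PolylogsAtAllRoots

/-- `f_0(x) = log x` (the principal branch), and for `k ≥ 1` the polylogarithm `f_k(x) = Li_k(x) = ∑_{m ≥ 1} x^m / m^k`. -/
noncomputable def polylog (k : ℕ) (x : ℂ) : ℂ := if k = 0 then Complex.log x else ∑' m : ℕ, x ^ (m + 1) / ((m : ℂ) + 1) ^ k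

/-- The integral vectors `a = (a_0, …, a_g)` with `|a_i| ≤ T`. -/
noncomputable def box (g T : ℕ) : Finset (Fin (g + 1) → ℤ) := Fintype.piFinset fun _ => Finset.Icc (-(T : ℤ)) (T : ℤ)

/-- The polynomial `a_0 + a_1 x + … + a_g x^g`. -/
noncomputable def poly {g : ℕ} (a : Fin (g + 1) → ℤ) : ℂ[X] := ∑ i, C (a i : ℂ) * X ^ (i : ℕ)

/-- The roots of the polynomial in the set `K`. -/
noncomputable def roots {g : ℕ} (K : Set ℂ) (a : Fin (g + 1) → ℤ) : Finset ℂ := by
  classical exact (poly a).roots.toFinset.filter fun z => z ∈ K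

/-- The points `x` with `|x| ≤ 1 - 1 / (k + 1)` outside the slit `(-1, 0]`. -/
def disc (k : ℕ) : Set ℂ := Complex.slitPlane ∩ Metric.closedBall 0 (1 - 1 / ((k : ℝ) + 1))

/-- The numbers `x q` satisfy no relation of degree at most `k` in each of them with coefficients `∑_{b < k} ξ_b c_b`, where the `c_b` are
integers of a number field of degree at most `k` all of whose conjugates are at most `T ^ k`, except the relations all of whose coefficients
vanish. -/
def NoRelation {Q : Type} [Fintype Q] [DecidableEq Q] (ξ : ℕ → ℂ) (k : ℕ) (T : ℝ) (x : Q → ℂ) : Prop :=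
  ∀ (F : Type) [Field F] [NumberField F], Module.finrank ℚ F ≤ k → ∀ (io : F →+* ℂ)
    (c : (Q → Fin (k + 1)) → Fin k → 𝓞 F), (∀ l b (φ : F →+* ℂ), ‖φ (c l b : F)‖ ≤ T ^ k) →
    ∑ l, (∑ b : Fin k, ξ b * io (c l b : F)) * ∏ q, x q ^ (l q : ℕ) = 0 → ∀ l, ∑ b : Fin k, ξ b * io (c l b : F) = 0

/-- The polynomial with the coefficients `a` has degree `g` and simple roots, and there is no relation between the numbers `log x`, `Li_1(x)`, …,
`Li_w(x)` at all its roots `x` in `disc k` together. -/
def Good {g : ℕ} (w : ℕ) (ξ : ℕ → ℂ) (k : ℕ) (T : ℝ) (a : Fin (g + 1) → ℤ) : Prop :=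
  a (Fin.last g) ≠ 0 ∧ (poly a).Separable ∧
    NoRelation ξ k T fun q : {x // x ∈ roots (disc k) a} × Fin (w + 1) => polylog q.2 q.1

theorem tame (k : ℕ) : Pool.Agent.X255.RH.Tame (disc k) Pool.Agent.Y771.KF.slitDisc := by
  have h1 : (1 : ℝ) - 1 / ((k : ℝ) + 1) < 1 := by
    have : 0 < 1 / ((k : ℝ) + 1) := by positivity
    linarith
  exact Pool.Agent.X255.RH.tame_slit.inter (Pool.Agent.X255.RH.tame_ball h1)

theorem slit_open : IsOpen Pool.Agent.Y771.KF.slitDisc := Complex.isOpen_slitPlane.inter Metric.isOpen_ball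

theorem li_diff (k : ℕ) : AnalyticOnNhd ℂ (fun x : ℂ => ∑' m : ℕ, x ^ (m + 1) / ((m : ℂ) + 1) ^ k) (Metric.ball 0 1) := by
  intro x hx
  have hx1 : ‖x‖ < 1 := mem_ball_zero_iff.1 hx
  obtain ⟨r, hr1, hr2⟩ := exists_between hx1
  have hr0 : 0 ≤ r := (norm_nonneg x).trans hr1.le
  have h1 : DifferentiableOn ℂ (fun x : ℂ => ∑' m : ℕ, x ^ (m + 1) / ((m : ℂ) + 1) ^ k) (Metric.ball 0 r) := by
    refine Complex.differentiableOn_tsum_of_summable_norm (u := fun m : ℕ => r ^ (m + 1)) ?_ (fun m => ?_) Metric.isOpen_ball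
      fun m z hz => ?_
    · exact (summable_nat_add_iff 1).2 (summable_geometric_of_lt_one hr0 hr2)
    · exact ((differentiable_id.pow _).div_const _).differentiableOn
    · have hz1 : ‖z‖ ≤ r := (mem_ball_zero_iff.1 hz).le
      have h2 : (1 : ℝ) ≤ ‖((m : ℂ) + 1) ^ k‖ := by
        rw [norm_pow]
        refine one_le_pow₀ ?_
        have h3 : ((m : ℂ) + 1) = ((m + 1 : ℕ) : ℂ) := by push_cast; ring
        rw [h3, Complex.norm_natCast]
        exact_mod_cast Nat.le_add_left 1 m
      rw [norm_div, norm_pow]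
      calc ‖z‖ ^ (m + 1) / ‖((m : ℂ) + 1) ^ k‖ ≤ ‖z‖ ^ (m + 1) / 1 := by gcongr
        _ = ‖z‖ ^ (m + 1) := div_one _
        _ ≤ r ^ (m + 1) := by gcongr
  exact h1.analyticAt (Metric.isOpen_ball.mem_nhds (mem_ball_zero_iff.2 hr1))

theorem an (w : ℕ) (i : Fin (w + 1)) : AnalyticOnNhd ℂ (fun x => polylog (i : ℕ) x) Pool.Agent.Y771.KF.slitDisc := by
  intro x hx
  unfold polylog
  by_cases hi : (i : ℕ) = 0
  · simp only [hi, if_true]
    exact analyticAt_clog hx.1
  · simp only [hi, if_false]
    exact li_diff _ x hx.2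

theorem ind (w : ℕ) : Pool.Agent.X255.RH.Indep Pool.Agent.Y771.KF.slitDisc (fun (i : Fin (w + 1)) (x : ℂ) => polylog (i : ℕ) x) := by
  refine Pool.Agent.X255.RH.indep_of_aindepS ?_
  have h : Pool.Agent.Y124.AIndep (fun (i : Fin (w + 1)) (t : ℝ) => Pool.Agent.TH818.AP.pl (i : ℕ) t) (1 / 4) (1 / 2) :=
    Pool.Agent.Y771.KF.aindep_of_rindep _ _ _ fun d =>
      Pool.Agent.TH818.AP.liInd_of Pool.Agent.TH818.AP.liAn Pool.Agent.TH818.AP.liLoc w d _ _ (by norm_num) (by norm_num) (by norm_num)
  refine Pool.Agent.Y771.KF.aindepS_of_real _ _ _ h _ _ 1 one_ne_zero (fun _ => 1) (fun _ => one_ne_zero) ?_ ?_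
  · intro t ht
    have h0 : (0 : ℝ) < t := by linarith [ht.1]
    rw [one_mul]
    constructor
    · rw [Complex.mem_slitPlane_iff]
      left
      simpa using h0
    · rw [mem_ball_zero_iff, Complex.norm_real, Real.norm_eq_abs, abs_of_pos h0]
      linarith [ht.2]
  · intro i t ht
    have h0 : (0 : ℝ) < t := by linarith [ht.1]
    rw [one_mul, one_mul]
    unfold polylog Pool.Agent.TH818.AP.pl
    by_cases hi : (i : ℕ) = 0
    · rw [if_pos hi, if_pos hi]
      exact (Complex.ofReal_log h0.le).symm
    · rw [if_neg hi, if_neg hi]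
      unfold Pool.Agent.TH818.AP.Li
      push_cast
      rfl

open scoped Classical in
/-- **All roots of almost all polynomials.** For every degree `g ≥ 1`, every `w` and all complex numbers `ξ_0, ξ_1, …` there is a function
`ω(T) → ∞` such that among the `(2 T + 1)^(g + 1)` integral polynomials with coefficients at most `T` at most the proportion `1 / ω(T)` is not
good. -/
theorem result (g : ℕ) (hg : 0 < g) (w : ℕ) (ξ : ℕ → ℂ) :
    ∃ ω : ℕ → ℕ, Tendsto ω atTop atTop ∧ Monotone ω ∧ ∀ T : ℕ,
      ω T * ((box g T).filter fun a => ¬ Good w ξ (ω T) T a).card ≤ (box g T).card :=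
  Pool.Agent.X255.RH.main_all hg Pool.Agent.Y771.KF.preconn_slit slit_open disc tame (an w) (ind w) ξ

end Pool.Agent.Results.MP_1eadae_ag.PolylogsAtAllRoots
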